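import Pool.Agent.Helper53.Slit.Prob

/-!
The T-junction of the square lattice: definitions.

Coordinates `u = x + y`, `w = x - y`.  The domain is the half plane `u ≥ 0` without the two quadrants
`u > i, w > h + 1` (upper right) and `u > L, w < 1` (lower right): three legs, going down (width `L`), up
(width `i ≤ L`) and to the right (width `h`).  The edge across the corner `(i, h+1)` is removed.
-/

set_option autoImplicit false

namespace H47Perc.JN
open Finset Filter Topology SimpleGraph H47Perc.DS H47Perc.SL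
open Pool.Agent.Helper69.RSW (Up perc_half_eq P_restrict P_congr P_mono Dep P)

/-- the T-junction -/
def InJ (i L h : ℤ) (z : ℤ × ℤ) : Prop :=
  0 ≤ z.1 + z.2 ∧ ¬ (i < z.1 + z.2 ∧ h + 1 < z.1 - z.2) ∧ ¬ (L < z.1 + z.2 ∧ z.1 - z.2 < 1)

open Classical in
/-- the truncated T-junction -/
noncomputable def dom (i L h M : ℤ) : Finset (ℤ × ℤ) :=
  (box (-M) M (-M) M).filter (fun z => InJ i L h z ∧ z.1 + z.2 ≤ M ∧ |z.1 - z.2| ≤ M)

lemma mem_dom {i L h M : ℤ} {z : ℤ × ℤ} : z ∈ dom i L h M ↔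
    InJ i L h z ∧ z.1 + z.2 ≤ M ∧ |z.1 - z.2| ≤ M := by
  classical
  unfold dom
  rw [mem_filter, mem_box]
  constructor
  · exact fun h => h.2
  · intro h
    refine ⟨?_, h⟩
    have h1 := h.1.1
    have h2 := h.2.1
    have h3 := abs_le.1 h.2.2
    omega

/-- the edge across the corner `(i, h+1)` -/
def CutJ (i h : ℤ) (e : Sym2 (ℤ × ℤ)) : Prop := ∃ a b : ℤ × ℤ, e = s(a, b) ∧ a.1 + a.2 = i ∧
  a.1 - a.2 = h + 2 ∧ b.1 + b.2 = i + 1 ∧ b.1 - b.2 = h + 1

lemma cutJ_mk {i h : ℤ} {a b : ℤ × ℤ} : CutJ i h s(a, b) ↔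
    (a.1 + a.2 = i ∧ a.1 - a.2 = h + 2 ∧ b.1 + b.2 = i + 1 ∧ b.1 - b.2 = h + 1) ∨
    (b.1 + b.2 = i ∧ b.1 - b.2 = h + 2 ∧ a.1 + a.2 = i + 1 ∧ a.1 - a.2 = h + 1) := by
  constructor
  · rintro ⟨c, d, h, h1, h2, h3, h4⟩
    rw [Sym2.eq_iff] at h
    rcases h with ⟨rfl, rfl⟩ | ⟨rfl, rfl⟩
    · exact Or.inl ⟨h1, h2, h3, h4⟩
    · exact Or.inr ⟨h1, h2, h3, h4⟩
  · rintro (⟨h1, h2, h3, h4⟩ | ⟨h1, h2, h3, h4⟩)
    · exact ⟨a, b, rfl, h1, h2, h3, h4⟩
    · exact ⟨b, a, Sym2.eq_swap, h1, h2, h3, h4⟩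

open Classical in
/-- the edges of the truncated T-junction -/
noncomputable def jE (i L h M : ℤ) : Finset (Sym2 (ℤ × ℤ)) :=
  (edgesIn (dom i L h M)).filter (fun e => ¬ CutJ i h e)

/-- the right wall of the upper leg (the source) -/
def Src (i h : ℤ) (z : ℤ × ℤ) : Prop := z.1 + z.2 = i ∧ h + 1 ≤ z.1 - z.2

/-- the right wall of the lower leg and the lower wall of the right leg (the target) -/
def Tg (L : ℤ) (z : ℤ × ℤ) : Prop :=
  (z.1 + z.2 = L ∧ z.1 - z.2 ≤ 1) ∨ (L ≤ z.1 + z.2 ∧ z.1 - z.2 = 1)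

/-- the crossing event: the right wall of the upper leg is joined to the target -/
def CrJ (i L h : ℤ) (ω : Finset (Sym2 (ℤ × ℤ))) : Prop :=
  ∃ z z' : ℤ × ℤ, Src i h z ∧ Tg L z' ∧ Joined ω z z'

/-- the crossing probability of the truncated T-junction -/
noncomputable def pJ (i L h M : ℤ) : ℝ := P (jE i L h M) (CrJ i L h)

lemma crJ_mono {i L h : ℤ} {ω ω' : Finset (Sym2 (ℤ × ℤ))} (hω : ω ⊆ ω') (hc : CrJ i L h ω) :
    CrJ i L h ω' := by
  obtain ⟨z, z', h1, h2, h3⟩ := hc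
  exact ⟨z, z', h1, h2, joined_mono hω h3⟩

lemma jE_mono {i L h M M' : ℤ} (hM : M ≤ M') : jE i L h M ⊆ jE i L h M' := by
  classical
  intro e he
  unfold jE at he ⊢
  rw [mem_filter] at he ⊢
  refine ⟨edgesIn_mono ?_ he.1, he.2⟩
  intro z hz
  rw [mem_dom] at hz ⊢
  exact ⟨hz.1, hz.2.1.trans hM, hz.2.2.trans hM⟩

lemma pJ_mono {i L h M M' : ℤ} (hM : M ≤ M') : pJ i L h M ≤ pJ i L h M' := by
  classical
  have hsub : jE i L h M ⊆ jE i L h M' := jE_mono hM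
  have hD : Dep (jE i L h M) (fun ω : Finset (Sym2 (ℤ × ℤ)) => CrJ i L h (ω ∩ jE i L h M)) := by
    intro S
    simp only
    rw [inter_assoc, inter_self]
  have h1 := P_restrict hsub hD
  unfold pJ
  calc P (jE i L h M) (CrJ i L h) = P (jE i L h M) (fun ω => CrJ i L h (ω ∩ jE i L h M)) := by
        apply P_congr
        intro S hS
        rw [inter_eq_left.2 hS]
    _ = _ := h1.symm
    _ ≤ _ := by
        apply P_mono
        intro S _ hc
        exact crJ_mono inter_subset_left hc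

end H47Perc.JN
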