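import Pool.Agent.Helper53.J.Defs
import Pool.Agent.Helper72.Slit.Trunc

/-!
The crossing probability of the truncated T-junction converges exponentially fast, uniformly: a path in
`D_M` that leaves the square of size `K (L+h)` goes through all the slabs of one of the three legs.
-/

set_option autoImplicit false

namespace H47Perc.JN
open Finset Filter Topology SimpleGraph H47Perc.DS H47Perc.SL
open Pool.Agent.Helper69.RSW (Up P_restrict P_congr P_mono Dep P P_flip P_compl P_indep
  P_nonneg P_le_one P_or_le P_map P_true P_add_of_disjoint)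

/-- the reflection that maps the right leg to a leg going up -/
def refl : ℤ × ℤ ≃ ℤ × ℤ where
  toFun z := (z.1, -1 - z.2)
  invFun z := (z.1, -1 - z.2)
  left_inv z := by ext <;> simp
  right_inv z := by ext <;> simp

lemma refl_apply (z : ℤ × ℤ) : refl z = (z.1, -1 - z.2) := rfl

lemma refl_iso : IsIso refl := by
  intro u v
  simp only [refl_apply, lattice]
  rw [show -1 - u.2 = -1 - v.2 ↔ u.2 = v.2 by omega,
    show |(-1 - u.2) - (-1 - v.2)| = |u.2 - v.2| by rw [abs_sub_comm]; congr 1; ring]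

/-- a long path in a leg goes through all slabs -/
lemma leg_slabs {W M : ℤ} (hW : 1 ≤ W) {K m : ℕ} (hm : m = 0 ∨ 6 * m + 4 ≤ K)
    {ω ω1 : Finset (Sym2 (ℤ × ℤ))} (hω1 : ω1 ⊆ edgesIn (dstrip W M)) (hsub : ω1 ⊆ ω) {b c : ℤ × ℤ}
    (h : Joined ω1 b c) (hb : b.1 ≤ W + 2) (hc : K * W < c.1 - c.2) (hc0 : 0 ≤ c.1 + c.2) :
    ∀ k < m, sE W k ω := by
  intro k hk
  have hm' : 6 * (m : ℤ) + 4 ≤ K := by omega
  have hk' : (k : ℤ) + 1 ≤ m := by exact_mod_cast hk
  have hk0 : (0 : ℤ) ≤ k := by positivity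
  have g1 : (6 * (m : ℤ) + 4) * W ≤ K * W := mul_le_mul_of_nonneg_right hm' (by omega)
  have g2 : ((k : ℤ) + 1) * (W + 2) ≤ m * (W + 2) := mul_le_mul_of_nonneg_right hk' (by omega)
  have g3 : (m : ℤ) * (W + 2) ≤ m * (3 * W) := mul_le_mul_of_nonneg_left (by omega) (by omega)
  have g4 : (1 : ℤ) * (W + 2) ≤ ((k : ℤ) + 1) * (W + 2) :=
    mul_le_mul_of_nonneg_right (by omega) (by omega)
  have g5 : (6 * (m : ℤ) + 4) * W = 2 * (m * (3 * W)) + 4 * W := by ring
  have h1 : sE W k ω1 := slab_of_joined hω1 h (by omega) (by unfold sx; omega) (by unfold sx; omega)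
  exact sE_up W k ω1 ω hsub h1

open Classical in
/-- a path leaving the square of size `R` goes far in one of the legs -/
lemma slabs_of_cr {i L h M : ℤ} (hi : 1 ≤ i) (hiL : i ≤ L) (hh : 1 ≤ h) {K m : ℕ}
    (hm : m = 0 ∨ 6 * m + 4 ≤ K) {ω : Finset (Sym2 (ℤ × ℤ))} (hω : ω ⊆ jE i L h M)
    (hc : CrJ i L h ω) (hn : ¬ CrJ i L h (ω ∩ jE i L h (K * (L + h)))) :
    (∀ k < m, sE (L + h) k ω) ∨ (∀ k < m, sE (L + h) k (ω.map (emb transp))) ∨
      (∀ k < m, sE (L + h) k (ω.map (emb refl))) := by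
  obtain ⟨z, z', h1, h2, h4⟩ := hc
  set R : ℤ := K * (L + h) with hR
  have hR0 : 0 ≤ R := mul_nonneg (by positivity) (by omega)
  have hωS : ω ⊆ edgesIn (dom i L h M) := hω.trans (filter_subset _ _)
  obtain ⟨h1a, h1b⟩ := h1
  by_contra hcon
  rw [not_or, not_or] at hcon
  obtain ⟨hcA, hcB, hcC⟩ := hcon
  have hz'w : z'.1 - z'.2 ≤ 1 := by
    rcases h2 with h2 | h2 <;> omega
  -- the upper leg
  have hA : ∀ v, Joined ω z v → v.1 - v.2 ≤ R := by
    intro v hv
    by_contra hvR
    apply hcA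
    by_cases hvh : v.1 - v.2 ≤ h + 1
    · -- then `R < h + 1`, so `K = 0`
      have hK : K = 0 := by
        by_contra hK
        have : (1 : ℤ) * (L + h) ≤ K * (L + h) :=
          mul_le_mul_of_nonneg_right (by omega) (by omega)
        omega
      intro k hk
      omega
    have hvz : Joined ω v z' := joined_trans (joined_symm hv) h4
    have hne : v ≠ z' := by
      rintro rfl
      omega
    have hvS : v ∈ dom i L h M := mem_of_joined_ne hωS hvz hne
    set T := (dom i L h M).filter (fun y => h + 1 < y.1 - y.2) with hT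
    obtain ⟨w, w', w1, w2, w3, w4, w5, w6⟩ := joined_exit (T := T) hωS hvz
      (by rw [hT, mem_filter]; exact ⟨hvS, by omega⟩) (by rw [hT, mem_filter]; omega)
    have hTs : T ⊆ dstrip (L + h) M := by
      intro y hy
      rw [hT, mem_filter, mem_dom] at hy
      rw [mem_dstrip]
      obtain ⟨⟨⟨y1, y2, y3⟩, y4, y5⟩, y6⟩ := hy
      refine ⟨y1, ?_, y5⟩
      by_contra hcon
      exact y2 ⟨by omega, y6⟩
    have hw' : w'.1 - w'.2 ≤ h + 1 := by
      by_contra hcon
      exact w2 (by rw [hT, mem_filter]; exact ⟨w3, by omega⟩)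
    have hwT := mem_dstrip.1 (hTs w1)
    have hvT := mem_dstrip.1 (hTs (by rw [hT, mem_filter]; exact ⟨hvS, by omega⟩ : v ∈ T))
    have g1 := adj_level w4
    exact leg_slabs (by omega) hm (inter_subset_right.trans (edgesIn_mono hTs)) inter_subset_left
      (joined_symm w6) (by omega) (by omega) (by omega)
  -- the lower leg
  have hB : ∀ v, Joined ω z v → -R ≤ v.1 - v.2 := by
    intro v hv
    by_contra hvR
    apply hcB
    have hvz : Joined ω v z := joined_symm hv
    have hne : v ≠ z := by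
      rintro rfl
      omega
    have hvS : v ∈ dom i L h M := mem_of_joined_ne hωS hvz hne
    set T := (dom i L h M).filter (fun y => y.1 - y.2 < 1) with hT
    have hvT : v ∈ T := by
      rw [hT, mem_filter]
      exact ⟨hvS, by omega⟩
    obtain ⟨w, w', w1, w2, w3, w4, w5, w6⟩ := joined_exit (T := T) hωS hvz hvT
      (by rw [hT, mem_filter]; omega)
    have hTs : T ⊆ dstrip (L + h) M := by
      intro y hy
      rw [hT, mem_filter, mem_dom] at hy
      rw [mem_dstrip]
      obtain ⟨⟨⟨y1, y2, y3⟩, y4, y5⟩, y6⟩ := hy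
      refine ⟨y1, ?_, y5⟩
      by_contra hcon
      exact y3 ⟨by omega, y6⟩
    have hw' : 1 ≤ w'.1 - w'.2 := by
      by_contra hcon
      exact w2 (by rw [hT, mem_filter]; exact ⟨w3, by omega⟩)
    have hwT := mem_dstrip.1 (hTs w1)
    have hvT' := mem_dstrip.1 (hTs hvT)
    have hw1 := (mem_filter.1 w1).2
    have g1 := adj_level w4
    have htr : (ω ∩ edgesIn T).map (emb transp) ⊆ edgesIn (dstrip (L + h) M) := by
      have h1 : (dstrip (L + h) M).map transp.toEmbedding = dstrip (L + h) M := by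
        ext z
        rw [mem_map_equiv, mem_dstrip, mem_dstrip]
        change (0 ≤ z.2 + z.1 ∧ z.2 + z.1 ≤ L + h ∧ |z.2 - z.1| ≤ M) ↔ _
        rw [abs_sub_comm, add_comm z.2 z.1]
      rw [← h1, edgesIn_map transp_iso]
      exact Finset.map_subset_map.2 (inter_subset_right.trans (edgesIn_mono hTs))
    refine leg_slabs (by omega) hm htr (Finset.map_subset_map.2 inter_subset_left)
      (joined_transp (joined_symm w6)) ?_ ?_ ?_
    · change w.2 ≤ _
      omega
    · change _ < v.2 - v.1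
      omega
    · change 0 ≤ v.2 + v.1
      omega
  -- the right leg
  have hC : ∀ v, Joined ω z v → v.1 + v.2 ≤ R := by
    intro v hv
    by_contra hvR
    apply hcC
    by_cases hvL : v.1 + v.2 ≤ L
    · have hK : K = 0 := by
        by_contra hK
        have : (1 : ℤ) * (L + h) ≤ K * (L + h) :=
          mul_le_mul_of_nonneg_right (by omega) (by omega)
        omega
      intro k hk
      omega
    have hvz : Joined ω v z := joined_symm hv
    have hne : v ≠ z := by
      rintro rfl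
      omega
    have hvS : v ∈ dom i L h M := mem_of_joined_ne hωS hvz hne
    set T := (dom i L h M).filter (fun y => L < y.1 + y.2) with hT
    have hvT : v ∈ T := by
      rw [hT, mem_filter]
      exact ⟨hvS, by omega⟩
    obtain ⟨w, w', w1, w2, w3, w4, w5, w6⟩ := joined_exit (T := T) hωS hvz hvT
      (by rw [hT, mem_filter]; omega)
    have hTs : T ⊆ (dstrip (L + h) (M + 1)).map refl.toEmbedding := by
      intro y hy
      rw [hT, mem_filter, mem_dom] at hy
      rw [mem_map_equiv, mem_dstrip]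
      change 0 ≤ y.1 + (-1 - y.2) ∧ y.1 + (-1 - y.2) ≤ L + h ∧ |y.1 - (-1 - y.2)| ≤ M + 1
      obtain ⟨⟨⟨y1, y2, y3⟩, y4, y5⟩, y6⟩ := hy
      have y7 : y.1 - y.2 ≤ h + 1 := by
        by_contra hcon
        exact y2 ⟨by omega, by omega⟩
      have y8 : 1 ≤ y.1 - y.2 := by
        by_contra hcon
        exact y3 ⟨by omega, by omega⟩
      rw [abs_le]
      omega
    have hw' : w'.1 + w'.2 ≤ L := by
      by_contra hcon
      exact w2 (by rw [hT, mem_filter]; exact ⟨w3, by omega⟩)
    have hT' : ∀ y ∈ T, L < y.1 + y.2 ∧ 1 ≤ y.1 - y.2 ∧ y.1 - y.2 ≤ h + 1 := by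
      intro y hy
      have := mem_map_equiv.1 (hTs hy)
      rw [mem_dstrip] at this
      have h5 : 0 ≤ y.1 + (-1 - y.2) := this.1
      rw [hT, mem_filter, mem_dom] at hy
      obtain ⟨⟨⟨y1, y2, y3⟩, y4, y5⟩, y6⟩ := hy
      refine ⟨y6, by omega, ?_⟩
      by_contra hcon
      exact y2 ⟨by omega, by omega⟩
    have hwT := hT' w w1
    have hvT' := hT' v hvT
    have g1 := adj_sum w4
    have htr : (ω ∩ edgesIn T).map (emb refl) ⊆ edgesIn (dstrip (L + h) (M + 1)) := by
      have h1 : ((dstrip (L + h) (M + 1)).map refl.toEmbedding).map refl.toEmbedding =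
          dstrip (L + h) (M + 1) := by
        ext z
        rw [mem_map_equiv, mem_map_equiv]
        have : refl.symm (refl.symm z) = z := by
          change (z.1, -1 - (-1 - z.2)) = z
          ext <;> simp
        rw [this]
      rw [← h1, edgesIn_map refl_iso]
      exact Finset.map_subset_map.2 (inter_subset_right.trans (edgesIn_mono hTs))
    refine leg_slabs (by omega) hm htr (Finset.map_subset_map.2 inter_subset_left)
      (joined_map.2 (joined_symm w6) : Joined _ (refl w) (refl v)) ?_ ?_ ?_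
    · change w.1 ≤ _
      omega
    · change _ < v.1 - (-1 - v.2)
      omega
    · change 0 ≤ v.1 + (-1 - v.2)
      omega
  apply hn
  refine ⟨z, z', ⟨h1a, h1b⟩, h2, ?_⟩
  refine (joined_closed (C := fun v => Joined ω z v ∧ Joined (ω ∩ jE i L h R) z v) ?_ h4
    ⟨joined_refl _ _, joined_refl _ _⟩).2
  rintro a b hab ⟨ha1, ha2⟩
  have hb1 : Joined ω z b := joined_trans ha1 (joined_edge hab)
  refine ⟨hb1, joined_trans ha2 (joined_edge ?_)⟩
  rw [mem_inter]
  refine ⟨hab, ?_⟩
  have hab' := hω hab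
  unfold jE at hab' ⊢
  rw [mem_filter, mem_edgesIn, mem_dom, mem_dom] at hab' ⊢
  exact ⟨⟨⟨hab'.1.1.1, hC a ha1, abs_le.2 ⟨hB a ha1, hA a ha1⟩⟩,
    ⟨hab'.1.2.1.1, hC b hb1, abs_le.2 ⟨hB b hb1, hA b hb1⟩⟩, hab'.1.2.2⟩, hab'.2⟩

open Classical in
theorem pJ_trunc : ∃ c : ℝ, 0 < c ∧ ∃ C : ℝ, 0 < C ∧ ∀ i L h : ℤ, 1 ≤ i → i ≤ L → 1 ≤ h →
    ∀ (K : ℕ) (M : ℤ), K * (L + h) ≤ M →
      pJ i L h M - pJ i L h (K * (L + h)) ≤ C * Real.exp (-(c * K)) := by
  obtain ⟨c, hc, hc1, hP⟩ := P_slabs
  refine ⟨c / 6, by positivity, 3 * Real.exp (3 * c / 2), by positivity, ?_⟩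
  intro i L h hi hiL hh K M hM
  set m : ℕ := (K - 4) / 6 with hm
  have hm1 : m = 0 ∨ 6 * m + 4 ≤ K := by omega
  set F := jE i L h M with hF
  set F' := jE i L h (K * (L + h)) with hF'
  have hsub : F' ⊆ F := jE_mono hM
  have hD : Dep F' (fun ω : Finset (Sym2 (ℤ × ℤ)) => CrJ i L h (ω ∩ F')) := by
    intro S
    simp only
    rw [inter_assoc, inter_self]
  have e1 : pJ i L h (K * (L + h)) = P F (fun ω => CrJ i L h (ω ∩ F')) := by
    rw [P_restrict hsub hD]
    unfold pJ
    apply P_congr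
    intro S hS
    rw [inter_eq_left.2 hS]
  have e2 : pJ i L h M ≤ P F (fun ω => CrJ i L h (ω ∩ F')) +
      (P F (fun ω => ∀ k < m, sE (L + h) k ω) +
        (P F (fun ω => ∀ k < m, sE (L + h) k (ω.map (emb transp))) +
          P F (fun ω => ∀ k < m, sE (L + h) k (ω.map (emb refl))))) := by
    refine le_trans ?_ ((P_or_le F _ _).trans (add_le_add_right ((P_or_le F _ _).trans
      (add_le_add_right (P_or_le F _ _) _)) _))
    unfold pJ
    apply P_mono
    intro ω hω hcr
    by_cases hn : CrJ i L h (ω ∩ F')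
    · exact Or.inl hn
    · exact Or.inr (slabs_of_cr hi hiL hh hm1 hω hcr hn)
  have e3 := hP (L + h) (by omega) m F
  have e4 : P F (fun ω => ∀ k < m, sE (L + h) k (ω.map (emb transp))) ≤ (1 - c) ^ m := by
    rw [← P_map F (emb transp) (fun ω => ∀ k < m, sE (L + h) k ω)]
    exact hP (L + h) (by omega) m _
  have e4' : P F (fun ω => ∀ k < m, sE (L + h) k (ω.map (emb refl))) ≤ (1 - c) ^ m := by
    rw [← P_map F (emb refl) (fun ω => ∀ k < m, sE (L + h) k ω)]
    exact hP (L + h) (by omega) m _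
  have e5 : (1 - c) ^ m ≤ Real.exp (3 * c / 2) * Real.exp (-(c / 6 * K)) := by
    have h1 : (1 - c) ^ m ≤ (Real.exp (-c)) ^ m :=
      pow_le_pow_left₀ (by linarith) (Real.one_sub_le_exp_neg c) m
    refine h1.trans ?_
    rw [← Real.exp_nat_mul, ← Real.exp_add]
    apply Real.exp_le_exp.2
    have h2 : (K : ℝ) ≤ 6 * m + 9 := by
      have : K ≤ 6 * m + 9 := by omega
      exact_mod_cast this
    nlinarith
  rw [e1]
  linarith

open Classical in
/-- a path leaving the square of size `R` goes far in one of the legs -/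
lemma slabs_of_cr' {i L h M : ℤ} (hi : 1 ≤ i) (hiL : 1 ≤ L) (hh : 1 ≤ h) {K m : ℕ}
    (hm : m = 0 ∨ 6 * m + 4 ≤ K) {ω : Finset (Sym2 (ℤ × ℤ))} (hω : ω ⊆ jE i L h M)
    (hc : CrJ i L h ω) (hn : ¬ CrJ i L h (ω ∩ jE i L h (K * (i + L + h)))) :
    (∀ k < m, sE (i + L + h) k ω) ∨ (∀ k < m, sE (i + L + h) k (ω.map (emb transp))) ∨
      (∀ k < m, sE (i + L + h) k (ω.map (emb refl))) := by
  obtain ⟨z, z', h1, h2, h4⟩ := hc
  set R : ℤ := K * (i + L + h) with hR
  have hR0 : 0 ≤ R := mul_nonneg (by positivity) (by omega)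
  have hωS : ω ⊆ edgesIn (dom i L h M) := hω.trans (filter_subset _ _)
  obtain ⟨h1a, h1b⟩ := h1
  by_contra hcon
  rw [not_or, not_or] at hcon
  obtain ⟨hcA, hcB, hcC⟩ := hcon
  have hz'w : z'.1 - z'.2 ≤ 1 := by
    rcases h2 with h2 | h2 <;> omega
  -- the upper leg
  have hA : ∀ v, Joined ω z v → v.1 - v.2 ≤ R := by
    intro v hv
    by_contra hvR
    apply hcA
    by_cases hvh : v.1 - v.2 ≤ h + 1
    · -- then `R < h + 1`, so `K = 0`
      have hK : K = 0 := by
        by_contra hK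
        have : (1 : ℤ) * (i + L + h) ≤ K * (i + L + h) :=
          mul_le_mul_of_nonneg_right (by omega) (by omega)
        omega
      intro k hk
      omega
    have hvz : Joined ω v z' := joined_trans (joined_symm hv) h4
    have hne : v ≠ z' := by
      rintro rfl
      omega
    have hvS : v ∈ dom i L h M := mem_of_joined_ne hωS hvz hne
    set T := (dom i L h M).filter (fun y => h + 1 < y.1 - y.2) with hT
    obtain ⟨w, w', w1, w2, w3, w4, w5, w6⟩ := joined_exit (T := T) hωS hvz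
      (by rw [hT, mem_filter]; exact ⟨hvS, by omega⟩) (by rw [hT, mem_filter]; omega)
    have hTs : T ⊆ dstrip (i + L + h) M := by
      intro y hy
      rw [hT, mem_filter, mem_dom] at hy
      rw [mem_dstrip]
      obtain ⟨⟨⟨y1, y2, y3⟩, y4, y5⟩, y6⟩ := hy
      refine ⟨y1, ?_, y5⟩
      by_contra hcon
      exact y2 ⟨by omega, y6⟩
    have hw' : w'.1 - w'.2 ≤ h + 1 := by
      by_contra hcon
      exact w2 (by rw [hT, mem_filter]; exact ⟨w3, by omega⟩)
    have hwT := mem_dstrip.1 (hTs w1)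
    have hvT := mem_dstrip.1 (hTs (by rw [hT, mem_filter]; exact ⟨hvS, by omega⟩ : v ∈ T))
    have g1 := adj_level w4
    exact leg_slabs (by omega) hm (inter_subset_right.trans (edgesIn_mono hTs)) inter_subset_left
      (joined_symm w6) (by omega) (by omega) (by omega)
  -- the lower leg
  have hB : ∀ v, Joined ω z v → -R ≤ v.1 - v.2 := by
    intro v hv
    by_contra hvR
    apply hcB
    have hvz : Joined ω v z := joined_symm hv
    have hne : v ≠ z := by
      rintro rfl
      omega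
    have hvS : v ∈ dom i L h M := mem_of_joined_ne hωS hvz hne
    set T := (dom i L h M).filter (fun y => y.1 - y.2 < 1) with hT
    have hvT : v ∈ T := by
      rw [hT, mem_filter]
      exact ⟨hvS, by omega⟩
    obtain ⟨w, w', w1, w2, w3, w4, w5, w6⟩ := joined_exit (T := T) hωS hvz hvT
      (by rw [hT, mem_filter]; omega)
    have hTs : T ⊆ dstrip (i + L + h) M := by
      intro y hy
      rw [hT, mem_filter, mem_dom] at hy
      rw [mem_dstrip]
      obtain ⟨⟨⟨y1, y2, y3⟩, y4, y5⟩, y6⟩ := hy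
      refine ⟨y1, ?_, y5⟩
      by_contra hcon
      exact y3 ⟨by omega, y6⟩
    have hw' : 1 ≤ w'.1 - w'.2 := by
      by_contra hcon
      exact w2 (by rw [hT, mem_filter]; exact ⟨w3, by omega⟩)
    have hwT := mem_dstrip.1 (hTs w1)
    have hvT' := mem_dstrip.1 (hTs hvT)
    have hw1 := (mem_filter.1 w1).2
    have g1 := adj_level w4
    have htr : (ω ∩ edgesIn T).map (emb transp) ⊆ edgesIn (dstrip (i + L + h) M) := by
      have h1 : (dstrip (i + L + h) M).map transp.toEmbedding = dstrip (i + L + h) M := by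
        ext z
        rw [mem_map_equiv, mem_dstrip, mem_dstrip]
        change (0 ≤ z.2 + z.1 ∧ z.2 + z.1 ≤ i + L + h ∧ |z.2 - z.1| ≤ M) ↔ _
        rw [abs_sub_comm, add_comm z.2 z.1]
      rw [← h1, edgesIn_map transp_iso]
      exact Finset.map_subset_map.2 (inter_subset_right.trans (edgesIn_mono hTs))
    refine leg_slabs (by omega) hm htr (Finset.map_subset_map.2 inter_subset_left)
      (joined_transp (joined_symm w6)) ?_ ?_ ?_
    · change w.2 ≤ _
      omega
    · change _ < v.2 - v.1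
      omega
    · change 0 ≤ v.2 + v.1
      omega
  -- the right leg
  have hC : ∀ v, Joined ω z v → v.1 + v.2 ≤ R := by
    intro v hv
    by_contra hvR
    apply hcC
    by_cases hvL : v.1 + v.2 ≤ max i L
    · have hK : K = 0 := by
        by_contra hK
        have : (1 : ℤ) * (i + L + h) ≤ K * (i + L + h) :=
          mul_le_mul_of_nonneg_right (by omega) (by omega)
        omega
      intro k hk
      omega
    have hvz : Joined ω v z := joined_symm hv
    have hne : v ≠ z := by
      rintro rfl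
      omega
    have hvS : v ∈ dom i L h M := mem_of_joined_ne hωS hvz hne
    set T := (dom i L h M).filter (fun y => max i L < y.1 + y.2) with hT
    have hvT : v ∈ T := by
      rw [hT, mem_filter]
      exact ⟨hvS, by omega⟩
    obtain ⟨w, w', w1, w2, w3, w4, w5, w6⟩ := joined_exit (T := T) hωS hvz hvT
      (by rw [hT, mem_filter]; omega)
    have hTs : T ⊆ (dstrip (i + L + h) (M + 1)).map refl.toEmbedding := by
      intro y hy
      rw [hT, mem_filter, mem_dom] at hy
      rw [mem_map_equiv, mem_dstrip]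
      change 0 ≤ y.1 + (-1 - y.2) ∧ y.1 + (-1 - y.2) ≤ i + L + h ∧ |y.1 - (-1 - y.2)| ≤ M + 1
      obtain ⟨⟨⟨y1, y2, y3⟩, y4, y5⟩, y6⟩ := hy
      have y7 : y.1 - y.2 ≤ h + 1 := by
        by_contra hcon
        exact y2 ⟨by omega, by omega⟩
      have y8 : 1 ≤ y.1 - y.2 := by
        by_contra hcon
        exact y3 ⟨by omega, by omega⟩
      rw [abs_le]
      omega
    have hw' : w'.1 + w'.2 ≤ max i L := by
      by_contra hcon
      exact w2 (by rw [hT, mem_filter]; exact ⟨w3, by omega⟩)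
    have hT' : ∀ y ∈ T, max i L < y.1 + y.2 ∧ 1 ≤ y.1 - y.2 ∧ y.1 - y.2 ≤ h + 1 := by
      intro y hy
      have := mem_map_equiv.1 (hTs hy)
      rw [mem_dstrip] at this
      have h5 : 0 ≤ y.1 + (-1 - y.2) := this.1
      rw [hT, mem_filter, mem_dom] at hy
      obtain ⟨⟨⟨y1, y2, y3⟩, y4, y5⟩, y6⟩ := hy
      refine ⟨y6, by omega, ?_⟩
      by_contra hcon
      exact y2 ⟨by omega, by omega⟩
    have hwT := hT' w w1
    have hvT' := hT' v hvT
    have g1 := adj_sum w4
    have htr : (ω ∩ edgesIn T).map (emb refl) ⊆ edgesIn (dstrip (i + L + h) (M + 1)) := by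
      have h1 : ((dstrip (i + L + h) (M + 1)).map refl.toEmbedding).map refl.toEmbedding =
          dstrip (i + L + h) (M + 1) := by
        ext z
        rw [mem_map_equiv, mem_map_equiv]
        have : refl.symm (refl.symm z) = z := by
          change (z.1, -1 - (-1 - z.2)) = z
          ext <;> simp
        rw [this]
      rw [← h1, edgesIn_map refl_iso]
      exact Finset.map_subset_map.2 (inter_subset_right.trans (edgesIn_mono hTs))
    refine leg_slabs (by omega) hm htr (Finset.map_subset_map.2 inter_subset_left)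
      (joined_map.2 (joined_symm w6) : Joined _ (refl w) (refl v)) ?_ ?_ ?_
    · change w.1 ≤ _
      omega
    · change _ < v.1 - (-1 - v.2)
      omega
    · change 0 ≤ v.1 + (-1 - v.2)
      omega
  apply hn
  refine ⟨z, z', ⟨h1a, h1b⟩, h2, ?_⟩
  refine (joined_closed (C := fun v => Joined ω z v ∧ Joined (ω ∩ jE i L h R) z v) ?_ h4
    ⟨joined_refl _ _, joined_refl _ _⟩).2
  rintro a b hab ⟨ha1, ha2⟩
  have hb1 : Joined ω z b := joined_trans ha1 (joined_edge hab)
  refine ⟨hb1, joined_trans ha2 (joined_edge ?_)⟩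
  rw [mem_inter]
  refine ⟨hab, ?_⟩
  have hab' := hω hab
  unfold jE at hab' ⊢
  rw [mem_filter, mem_edgesIn, mem_dom, mem_dom] at hab' ⊢
  exact ⟨⟨⟨hab'.1.1.1, hC a ha1, abs_le.2 ⟨hB a ha1, hA a ha1⟩⟩,
    ⟨hab'.1.2.1.1, hC b hb1, abs_le.2 ⟨hB b hb1, hA b hb1⟩⟩, hab'.1.2.2⟩, hab'.2⟩

open Classical in
/-- truncation for all widths -/
theorem pJ_trunc' : ∃ c : ℝ, 0 < c ∧ ∃ C : ℝ, 0 < C ∧ ∀ i L h : ℤ, 1 ≤ i → 1 ≤ L → 1 ≤ h →
    ∀ (K : ℕ) (M : ℤ), K * (i + L + h) ≤ M →
      pJ i L h M - pJ i L h (K * (i + L + h)) ≤ C * Real.exp (-(c * K)) := by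
  obtain ⟨c, hc, hc1, hP⟩ := P_slabs
  refine ⟨c / 6, by positivity, 3 * Real.exp (3 * c / 2), by positivity, ?_⟩
  intro i L h hi hiL hh K M hM
  set m : ℕ := (K - 4) / 6 with hm
  have hm1 : m = 0 ∨ 6 * m + 4 ≤ K := by omega
  set F := jE i L h M with hF
  set F' := jE i L h (K * (i + L + h)) with hF'
  have hsub : F' ⊆ F := jE_mono hM
  have hD : Dep F' (fun ω : Finset (Sym2 (ℤ × ℤ)) => CrJ i L h (ω ∩ F')) := by
    intro S
    simp only
    rw [inter_assoc, inter_self]
  have e1 : pJ i L h (K * (i + L + h)) = P F (fun ω => CrJ i L h (ω ∩ F')) := by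
    rw [P_restrict hsub hD]
    unfold pJ
    apply P_congr
    intro S hS
    rw [inter_eq_left.2 hS]
  have e2 : pJ i L h M ≤ P F (fun ω => CrJ i L h (ω ∩ F')) +
      (P F (fun ω => ∀ k < m, sE (i + L + h) k ω) +
        (P F (fun ω => ∀ k < m, sE (i + L + h) k (ω.map (emb transp))) +
          P F (fun ω => ∀ k < m, sE (i + L + h) k (ω.map (emb refl))))) := by
    refine le_trans ?_ ((P_or_le F _ _).trans (add_le_add_right ((P_or_le F _ _).trans
      (add_le_add_right (P_or_le F _ _) _)) _))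
    unfold pJ
    apply P_mono
    intro ω hω hcr
    by_cases hn : CrJ i L h (ω ∩ F')
    · exact Or.inl hn
    · exact Or.inr (slabs_of_cr' hi hiL hh hm1 hω hcr hn)
  have e3 := hP (i + L + h) (by omega) m F
  have e4 : P F (fun ω => ∀ k < m, sE (i + L + h) k (ω.map (emb transp))) ≤ (1 - c) ^ m := by
    rw [← P_map F (emb transp) (fun ω => ∀ k < m, sE (i + L + h) k ω)]
    exact hP (i + L + h) (by omega) m _
  have e4' : P F (fun ω => ∀ k < m, sE (i + L + h) k (ω.map (emb refl))) ≤ (1 - c) ^ m := by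
    rw [← P_map F (emb refl) (fun ω => ∀ k < m, sE (i + L + h) k ω)]
    exact hP (i + L + h) (by omega) m _
  have e5 : (1 - c) ^ m ≤ Real.exp (3 * c / 2) * Real.exp (-(c / 6 * K)) := by
    have h1 : (1 - c) ^ m ≤ (Real.exp (-c)) ^ m :=
      pow_le_pow_left₀ (by linarith) (Real.one_sub_le_exp_neg c) m
    refine h1.trans ?_
    rw [← Real.exp_nat_mul, ← Real.exp_add]
    apply Real.exp_le_exp.2
    have h2 : (K : ℝ) ≤ 6 * m + 9 := by
      have : K ≤ 6 * m + 9 := by omega
      exact_mod_cast this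
    nlinarith
  rw [e1]
  linarith

end H47Perc.JN
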