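import Pool.Agent.Helper63.J.Lower
import Pool.Agent.Helper80.J.Defs

/-!
The law of the lower piece and of the right leg in terms of the solution `V`.
-/

set_option autoImplicit false

namespace H47Perc.JN
open Finset Real IP H47Perc.JJ

lemma upR_zero (off : ℕ) (v : M) : upR off 0 v = v := rfl
lemma upR_succ (off m : ℕ) (v : M) : upR off (m + 1) v = Rt (off + m) (π / 6) (upR off m v) := rfl

/-- the operator of the lower piece -/
noncomputable def opJ (m p q : ℕ) : M →ₗ[ℝ] M :=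
  upR 0 (2 * m + 1) ∘ₗ upR 1 (2 * (m + p) + 1) ∘ₗ In 0 ∘ₗ (JJ.DD (m + p)) ^ q

lemma opJ_apply (m p q : ℕ) (v : M) : opJ m p q v =
    upR 0 (2 * m + 1) (upR 1 (2 * (m + p) + 1) (In 0 ((JJ.DD (m + p) ^ q) v))) := rfl

lemma s_pi6 : s (π / 6) = 1 := by
  unfold s
  rw [show π / 3 + π / 6 = π / 2 by ring, sin_pi_div_two]

lemma V_congr {n : ℕ} {b b' : ℕ → ℝ} (h : ∀ j < 2 * n + 1, b j = b' j) : V n b = V n b' := by
  ext σ
  exact (V_Sep n σ).2 b b' h

/-- moving the strand with the parameter `π/6` to the right -/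
lemma upR_V {n off : ℕ} {c : ℕ → ℝ} (m : ℕ) (hoff : off + m ≤ 2 * n)
    (hc : ∀ k, off ≤ k → k ≤ off + m → c k = 0) :
    upR off m (V n (Function.update c off (π / 6))) = V n (Function.update c (off + m) (π / 6)) := by
  induction m with
  | zero =>
    rw [upR_zero, Nat.add_zero]
  | succ m ih =>
    rw [upR_succ, ih (by omega) (fun k h1 h2 => hc k h1 (by omega))]
    set b := Function.update c (off + m) (π / 6) with hb
    have h0 : b (off + m) = π / 6 := by rw [hb, Function.update_self]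
    have h1 : b (off + m + 1) = 0 := by
      rw [hb, Function.update_of_ne (by omega)]
      exact hc _ (by omega) (by omega)
    have h2 := V_sw (n := n) (i := off + m) (by omega) b
    rw [h0, h1, sub_zero, s_pi6, one_smul] at h2
    rw [← h2]
    congr 1
    funext j
    unfold sw
    by_cases hj : j = off + m
    · subst hj
      rw [Equiv.swap_apply_left, h1, Function.update_of_ne (by omega)]
      exact (hc _ (by omega) (by omega)).symm
    · by_cases hj' : j = off + m + 1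
      · subst hj'
        rw [Equiv.swap_apply_right, h0, ← Nat.add_assoc, Function.update_self]
      · rw [Equiv.swap_apply_of_ne_of_ne hj hj', hb, Function.update_of_ne hj,
          Function.update_of_ne (by omega)]

/-- two strands with the parameter `π/6` at the left end -/
noncomputable def pp (c : ℕ → ℝ) : ℕ → ℝ := fun j => if j < 2 then π / 6 else c (j - 2)

lemma KK_pos {n : ℕ} {c : ℕ → ℝ} (hc : ∀ j, c j = 0 ∨ c j = π / 6) : 0 < KK n (-(π / 6)) c := by
  unfold KK
  apply prod_pos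
  intro j _
  rcases hc j with h | h
  · rw [h]
    simp only [zero_sub, neg_neg, neg_zero]
    rw [s_pi6]
    norm_num
  · rw [h]
    have h1 : 0 < s (π / 6 - -(π / 6)) := by
      unfold s
      apply sin_pos_of_pos_of_lt_pi <;> linarith [pi_pos]
    have h2 : 0 < s (-(π / 6) - -(π / 6)) := by
      unfold s
      apply sin_pos_of_pos_of_lt_pi <;> linarith [pi_pos]
    exact mul_pos h1 h2

lemma In_V {n : ℕ} {c : ℕ → ℝ} (hc : ∀ j, c j = 0 ∨ c j = π / 6) :
    ∃ κ : ℝ, κ ≠ 0 ∧ In 0 (V n c) = κ • V (n + 1) (pp c) := by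
  have h0 := (KK_pos (n := n) hc).ne'
  refine ⟨(KK n (-(π / 6)) c)⁻¹, inv_ne_zero h0, ?_⟩
  have h1 := V_all (n := n) (i := 0) (by omega) c (-(π / 6))
  have h2 : V (n + 1) (pp c) = V (n + 1) (ins2 0 (-(π / 6)) c) := by
    rw [← V_ngL]
    congr 1
    funext j
    unfold pp ng ins2
    by_cases h0 : j = 0
    · subst h0
      rw [Function.update_self]
      simp
    · rw [Function.update_of_ne h0]
      by_cases h1 : j = 1
      · subst h1
        simp
        ring
      · rw [if_neg (by omega), if_neg (by omega), if_neg h0, if_neg (by omega)]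
  rw [h2, h1, smul_smul, inv_mul_cancel₀ h0, one_smul]

lemma tot_upR (off m : ℕ) (v : M) : tot (upR off m v) = tot v := by
  induction m with
  | zero => rfl
  | succ m ih => rw [upR_succ, tot_Rt, s_pi6, one_mul, ih]

lemma tot_DD_pow (n q : ℕ) (v : M) : tot (((JJ.DD n) ^ q) v) = tot v := by
  induction q with
  | zero => rfl
  | succ q ih =>
    rw [pow_succ', Module.End.mul_apply]
    unfold JJ.DD at ih ⊢
    rw [LinearMap.comp_apply, LinearMap.comp_apply, tot_upR, tot_upR, tot_In, ih]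

lemma tot_opJ (m p q : ℕ) (v : M) : tot (opJ m p q v) = tot v := by
  unfold opJ
  rw [LinearMap.comp_apply, LinearMap.comp_apply, LinearMap.comp_apply, tot_upR, tot_upR, tot_In,
    tot_DD_pow]

/-- `2n+1` vertical strands, then horizontal strands -/
noncomputable def c0 (n : ℕ) : ℕ → ℝ := fun j => if j < 2 * n + 1 then 0 else π / 6

lemma c0_or (n j : ℕ) : c0 n j = 0 ∨ c0 n j = π / 6 := by
  unfold c0
  split_ifs
  · exact Or.inl rfl
  · exact Or.inr rfl

/-- one odd row, then (the left part of) an even row -/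
lemma two_rows {n J : ℕ} (r : ℕ) (hJ : J ≤ n) : ∃ κ : ℝ, κ ≠ 0 ∧
    upR 0 (2 * J + 1) (upR 1 (2 * n + 1) (In 0 (V (n + r) (c0 n)))) =
      κ • V (n + r + 1) (IP.Junc.ins1 (2 * J + 1) (π / 6) (c0 n)) := by
  obtain ⟨κ, h0, h1⟩ := In_V (n := n + r) (c0_or n)
  refine ⟨κ, h0, ?_⟩
  rw [h1, map_smul, map_smul]
  congr 1
  have e1 : pp (c0 n) = Function.update (fun j => if j = 0 then π / 6 else if j < 2 * n + 3 then 0
      else π / 6) 1 (π / 6) := by
    funext j
    unfold pp c0
    by_cases hj : j = 1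
    · subst hj
      rw [Function.update_self, if_pos (by omega)]
    · rw [Function.update_of_ne hj]
      by_cases h0 : j = 0
      · rw [if_pos (by omega), if_pos h0]
      · rw [if_neg (by omega), if_neg h0]
        by_cases h2 : j < 2 * n + 3
        · rw [if_pos (by omega), if_pos h2]
        · rw [if_neg (by omega), if_neg h2]
  have e2 : Function.update (fun j => if j = 0 then π / 6 else if j < 2 * n + 3 then 0
      else π / 6) (1 + (2 * n + 1)) (π / 6) =
      Function.update (fun j => if j < 2 * n + 2 then (0 : ℝ) else π / 6) 0 (π / 6) := by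
    funext j
    by_cases hj : j = 1 + (2 * n + 1)
    · subst hj
      rw [Function.update_self, Function.update_of_ne (by omega), if_neg (by omega)]
    · rw [Function.update_of_ne hj]
      by_cases h0 : j = 0
      · subst h0
        rw [Function.update_self, if_pos rfl]
      · rw [Function.update_of_ne h0, if_neg h0]
        by_cases h2 : j < 2 * n + 2
        · rw [if_pos (by omega), if_pos h2]
        · rw [if_neg (by omega), if_neg h2]
  have e3 : Function.update (fun j => if j < 2 * n + 2 then (0 : ℝ) else π / 6) (0 + (2 * J + 1)) (π / 6) =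
      IP.Junc.ins1 (2 * J + 1) (π / 6) (c0 n) := by
    funext j
    unfold IP.Junc.ins1 c0
    by_cases hj : j = 2 * J + 1
    · subst hj
      rw [Nat.zero_add, Function.update_self, if_neg (by omega), if_pos rfl]
    · rw [Function.update_of_ne (by omega)]
      by_cases h1 : j < 2 * J + 1
      · rw [if_pos (by omega), if_pos h1, if_pos (by omega)]
      · rw [if_neg h1, if_neg hj]
        by_cases h2 : j < 2 * n + 2
        · rw [if_pos h2, if_pos (by omega)]
        · rw [if_neg h2, if_neg (by omega)]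
  rw [e1, upR_V (2 * n + 1) (by omega), e2, upR_V (2 * J + 1) (by omega), e3]
  · intro k h1 h2
    rw [if_pos (by omega)]
  · intro k h1 h2
    rw [if_neg (by omega), if_pos (by omega)]

lemma ins1_c0 (n : ℕ) : IP.Junc.ins1 (2 * n + 1) (π / 6) (c0 n) = c0 n := by
  funext j
  unfold IP.Junc.ins1 c0
  by_cases h1 : j < 2 * n + 1
  · rw [if_pos h1, if_pos h1]
  · rw [if_neg h1, if_neg h1]
    by_cases h2 : j = 2 * n + 1
    · rw [if_pos h2]
    · rw [if_neg h2, if_neg (by omega)]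

lemma DD_V (n r : ℕ) : ∃ κ : ℝ, κ ≠ 0 ∧ JJ.DD n (V (n + r) (c0 n)) = κ • V (n + r + 1) (c0 n) := by
  obtain ⟨κ, h0, h1⟩ := two_rows r (le_refl n)
  rw [ins1_c0] at h1
  exact ⟨κ, h0, h1⟩

lemma DD_pow_V (n q : ℕ) : ∃ κ : ℝ, κ ≠ 0 ∧ ((JJ.DD n) ^ q) (V n (c0 n)) = κ • V (n + q) (c0 n) := by
  induction q with
  | zero => exact ⟨1, one_ne_zero, by rw [pow_zero, one_smul]; rfl⟩
  | succ q ih =>
    obtain ⟨κ, h0, h1⟩ := ih
    obtain ⟨κ', h0', h1'⟩ := DD_V n q
    refine ⟨κ * κ', mul_ne_zero h0 h0', ?_⟩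
    rw [pow_succ', Module.End.mul_apply, h1, map_smul, h1', smul_smul, Nat.add_assoc]

lemma opJ_V (m p q : ℕ) : ∃ κ : ℝ, κ ≠ 0 ∧ opJ m p q (V (m + p) (c0 (m + p))) =
    κ • V (m + (p + q) + 1) (IP.Junc.ins1 (2 * m + 1) (π / 6) (c0 (m + p))) := by
  obtain ⟨κ, h0, h1⟩ := DD_pow_V (m + p) q
  obtain ⟨κ', h0', h1'⟩ := two_rows (n := m + p) (J := m) q (by omega)
  refine ⟨κ * κ', mul_ne_zero h0 h0', ?_⟩
  unfold opJ
  rw [LinearMap.comp_apply, LinearMap.comp_apply, LinearMap.comp_apply, h1, map_smul, map_smul,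
    map_smul, h1', smul_smul, Nat.add_assoc m p q]

lemma P_V0 (n : ℕ) : P n 0 = (Z n (c0 n))⁻¹ • V n (c0 n) ∧ Z n (c0 n) ≠ 0 := by
  have h1 : V n (c0 n) = V n 0 := V_congr fun j hj => by unfold c0; rw [if_pos hj]; rfl
  have h2 := Z_ne n IP.PG.zero_Cube
  unfold Z at h2 ⊢
  rw [h1]
  exact ⟨P_eq n IP.PG.zero_Cube, h2⟩

/-- normalised multiple -/
lemma norm_of {v w : M} {κ : ℝ} (h : v = κ • w) (hv : tot v = 1) : v = (tot w)⁻¹ • w ∧ tot w ≠ 0 := by
  have h1 : κ * tot w = 1 := by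
    rw [← hv, h, map_smul, smul_eq_mul]
  have h2 : tot w ≠ 0 := by
    intro h0
    rw [h0, mul_zero] at h1
    exact zero_ne_one h1
  refine ⟨?_, h2⟩
  rw [h, eq_inv_of_mul_eq_one_left h1]

lemma tot_P0 (n : ℕ) : tot (P n 0) = 1 := tot_P n IP.PG.zero_Cube

/-- **the vector of the lower piece** -/
theorem opJ_P (m p q : ℕ) :
    opJ m p q (P (m + p) 0) =
      (Z (m + (p + q) + 1) (IP.Junc.ins1 (2 * m + 1) (π / 6) (c0 (m + p))))⁻¹ •
        V (m + (p + q) + 1) (IP.Junc.ins1 (2 * m + 1) (π / 6) (c0 (m + p))) ∧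
      Z (m + (p + q) + 1) (IP.Junc.ins1 (2 * m + 1) (π / 6) (c0 (m + p))) ≠ 0 := by
  obtain ⟨h1, h2⟩ := P_V0 (m + p)
  obtain ⟨κ, h0, h3⟩ := opJ_V m p q
  refine norm_of (κ := (Z (m + p) (c0 (m + p)))⁻¹ * κ) ?_ ?_
  · rw [h1, map_smul, h3, smul_smul]
  · rw [tot_opJ, tot_P0]

/-- the parameters of the right leg -/
noncomputable def c1 (m p : ℕ) : ℕ → ℝ := fun j => π / 6 - c0 (m + p) (2 * m + 1 + j)

lemma c1_or (m p j : ℕ) : c1 m p j = 0 ∨ c1 m p j = π / 6 := by
  unfold c1
  rcases c0_or (m + p) (2 * m + 1 + j) with h | h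
  · rw [h, sub_zero]; exact Or.inr rfl
  · rw [h, sub_self]; exact Or.inl rfl

lemma pp_c1 (m p : ℕ) : pp (c1 m p) = c1 m (p + 1) := by
  funext j
  unfold pp c1 c0
  by_cases hj : j < 2
  · rw [if_pos hj, if_pos (by omega), sub_zero]
  · rw [if_neg hj]
    by_cases h1 : 2 * m + 1 + j < 2 * (m + (p + 1)) + 1
    · rw [if_pos (by omega), if_pos h1]
    · rw [if_neg (by omega), if_neg h1]

/-- **the vector of the right leg** -/
theorem right_P (m p q : ℕ) :
    ((In 0) ^ p) (P q 0) = (Z (p + q) (c1 m p))⁻¹ • V (p + q) (c1 m p) ∧ Z (p + q) (c1 m p) ≠ 0 := by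
  induction p with
  | zero =>
    have h1 : V q (c1 m 0) = V q 0 := V_congr fun j _ => by
      unfold c1 c0
      rw [if_neg (by omega), sub_self]
      rfl
    have h2 := Z_ne q IP.PG.zero_Cube
    unfold Z at h2 ⊢
    rw [pow_zero, Nat.zero_add, h1]
    exact ⟨P_eq q IP.PG.zero_Cube, h2⟩
  | succ p ih =>
    obtain ⟨κ, h0, h1⟩ := In_V (n := p + q) (c1_or m p)
    rw [pp_c1] at h1
    have e : p + 1 + q = p + q + 1 := by ring
    rw [e]
    refine norm_of (κ := (Z (p + q) (c1 m p))⁻¹ * κ) ?_ ?_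
    · rw [pow_succ', Module.End.mul_apply, ih.1, map_smul, h1, smul_smul]
    · rw [pow_succ', Module.End.mul_apply, tot_In, ih.1, map_smul, smul_eq_mul]
      exact inv_mul_cancel₀ ih.2

/-- the vector of the upper leg -/
theorem left_P (m p : ℕ) :
    P m 0 = (Z m (fun j => -c0 (m + p) j))⁻¹ • V m (fun j => -c0 (m + p) j) ∧
      Z m (fun j => -c0 (m + p) j) ≠ 0 := by
  have h1 : V m (fun j => -c0 (m + p) j) = V m 0 := V_congr fun j hj => by
    unfold c0
    rw [if_pos (by omega), neg_zero]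
    rfl
  have h2 := Z_ne m IP.PG.zero_Cube
  unfold Z at h2 ⊢
  rw [h1]
  exact ⟨P_eq m IP.PG.zero_Cube, h2⟩

/-- **the crossing form of the three vectors in terms of `FF`** -/
theorem tri_FF (m p q : ℕ) :
    IP.Slit.tri m (p + q) (P m 0) (((In 0) ^ p) (P q 0)) (opJ m p q (P (m + p) 0)) =
      1 - IP.Junc.FF m (p + q) (c0 (m + p)) (π / 6) /
        (Z m (fun j => -c0 (m + p) j) * Z (p + q) (c1 m p) *
          Z (m + (p + q) + 1) (IP.Junc.ins1 (2 * m + 1) (π / 6) (c0 (m + p)))) := by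
  obtain ⟨a1, a2⟩ := left_P m p
  obtain ⟨b1, b2⟩ := right_P m p q
  obtain ⟨d1, d2⟩ := opJ_P m p q
  rw [a1, b1, d1, IP.Slit.tri_smul1, IP.Slit.tri_smul2, IP.Slit.tri_smul3]
  unfold IP.Junc.FF IP.Junc.triC
  change _ = 1 - (Z m (fun j => -c0 (m + p) j) * Z (p + q) (c1 m p) *
    Z (m + (p + q) + 1) (IP.Junc.ins1 (2 * m + 1) (π / 6) (c0 (m + p))) - IP.Slit.tri m (p + q)
      (V m (fun j => -c0 (m + p) j)) (V (p + q) (c1 m p))
      (V (m + (p + q) + 1) (IP.Junc.ins1 (2 * m + 1) (π / 6) (c0 (m + p))))) / _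
  field_simp
  ring

end H47Perc.JN
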