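import Pool.Agent.Helper53.J.Defs
import Pool.Agent.Helper53.J.Alg
import Pool.Agent.Helper87.J.Geo

/-!
The limit of the crossing probability of the truncated T-junction (odd widths).
-/

set_option autoImplicit false

namespace H47Perc.JN
open Finset Filter Topology H47Perc.DS H47Perc.SL H47Perc.JJ

/-- statement of `pJ_law` (helper87) -/
def PJLaw : Prop := ∀ m p q N : ℕ, q + 1 ≤ N → m + p ≤ N →
  pJ (2 * m + 1) (2 * ((m + p : ℕ) : ℤ) + 1) (2 * q + 1) (2 * N + 1) =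
    IP.Slit.tri m (p + q) (law (2 * m + 1) (edgesIn (reg m 1 (2 * ((N - q - 1 : ℕ) : ℤ) + 1))) (fr m 0))
      (((IP.In 0) ^ p) (law (2 * q + 1) (edgesIn (reg q 1 (2 * ((N - m - p : ℕ) : ℤ) + 1))) (fr q 0)))
      (lawA (LW (m + p)) (lowE m (m + p) q (-(2 * N + 1))) (frJ m (m + p) q))

lemma law_up (n N : ℕ) : law (2 * n + 1) (edgesIn (reg n 1 (2 * N + 1))) (fr n 0) =
    ((IP.T n 0) ^ N) (Finsupp.single (IP.bot n) 1) := by
  rw [law_reflect, ← zb_eq, T_zb]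
  have h2 := law_strip n (-(N : ℕ)) N
  have a3 : 2 * (-((N : ℕ) : ℤ)) + 1 = 2 - (2 * N + 1) := by ring
  have a4 : -((N : ℕ) : ℤ) + ((N : ℕ) : ℤ) = 0 := by ring
  rw [a3, a4] at h2
  simp only [mul_zero, zero_add] at h2
  rw [h2]

lemma law_down (n N : ℕ) : law (2 * n + 1) (edgesIn (reg n (-(2 * N + 1)) 1)) (fr n 0) =
    ((IP.T n 0) ^ (N + 1)) (Finsupp.single (IP.bot n) 1) := by
  rw [← zb_eq, T_zb]
  have h1 := law_strip n (-(N + 1 : ℕ)) (N + 1)
  have a1 : 2 * (-(((N + 1 : ℕ)) : ℤ)) + 1 = -(2 * N + 1) := by push_cast; ring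
  have a2 : -(((N + 1 : ℕ)) : ℤ) + ((N + 1 : ℕ) : ℤ) = 0 := by ring
  rw [a1, a2] at h1
  simp only [mul_zero, zero_add] at h1
  rw [h1]

theorem pJ_T (H : PJLaw) (m p q N : ℕ) (h1 : q + 1 ≤ N) (h2 : m + p ≤ N) :
    pJ (2 * m + 1) (2 * ((m + p : ℕ) : ℤ) + 1) (2 * q + 1) (2 * N + 1) =
      IP.Slit.tri m (p + q) (((IP.T m 0) ^ (N - q - 1)) (Finsupp.single (IP.bot m) 1))
        (((IP.In 0) ^ p) (((IP.T q 0) ^ (N - m - p)) (Finsupp.single (IP.bot q) 1)))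
        (opJ m p q (((IP.T (m + p) 0) ^ (N + 1)) (Finsupp.single (IP.bot (m + p)) 1))) := by
  rw [H m p q N h1 h2, law_up, law_up, law_low m (m + p) q (by omega) (by omega), law_down, opJ_apply]

/-- a linear map is continuous on vectors supported in a finite set -/
lemma lin_tendsto {n : ℕ} (F : IP.M →ₗ[ℝ] IP.M) {v : ℕ → IP.M} {w : IP.M}
    (h : ∀ N, v N ∈ IP.Sup (IP.W n)) (g : w ∈ IP.Sup (IP.W n))
    (l : ∀ σ, Tendsto (fun N => v N σ) atTop (𝓝 (w σ))) (τ : IP.St) :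
    Tendsto (fun N => F (v N) τ) atTop (𝓝 (F w τ)) := by
  have key : ∀ u : IP.M, u ∈ IP.Sup (IP.W n) →
      F u τ = ∑ σ ∈ IP.WF n, u σ * F (Finsupp.single σ 1) τ := by
    intro u hu
    conv_lhs => rw [IP.expand hu]
    rw [map_sum, Finsupp.finsetSum_apply]
    refine sum_congr rfl fun σ _ => ?_
    rw [map_smul, Finsupp.smul_apply, smul_eq_mul]
  rw [key w g]
  have e : (fun N => F (v N) τ) = fun N => ∑ σ ∈ IP.WF n, v N σ * F (Finsupp.single σ 1) τ := by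
    funext N
    exact key _ (h N)
  rw [e]
  exact tendsto_finsetSum _ fun σ _ => (l σ).mul_const _

lemma upR_Sup {n : ℕ} (off m : ℕ) (h : off + m ≤ 2 * n) {v : IP.M} (hv : v ∈ IP.Sup (IP.W n)) :
    upR off m v ∈ IP.Sup (IP.W n) := by
  induction m with
  | zero => exact hv
  | succ m ih =>
    rw [upR_succ]
    exact IP.Rt_Sup (Or.inl (by omega)) _ (ih (by omega))

lemma In_pow_Sup {n : ℕ} (p : ℕ) {v : IP.M} (hv : v ∈ IP.Sup (IP.W n)) :
    ((IP.In 0) ^ p) v ∈ IP.Sup (IP.W (p + n)) := by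
  induction p with
  | zero => rw [Nat.zero_add]; exact hv
  | succ p ih =>
    rw [pow_succ', Module.End.mul_apply, show p + 1 + n = p + n + 1 by ring]
    exact IP.In_Sup (by omega) ih

lemma DD_pow_Sup {n : ℕ} (q : ℕ) {v : IP.M} (hv : v ∈ IP.Sup (IP.W n)) :
    ((JJ.DD n) ^ q) v ∈ IP.Sup (IP.W (n + q)) := by
  induction q with
  | zero => exact hv
  | succ q ih =>
    rw [pow_succ', Module.End.mul_apply, ← Nat.add_assoc]
    unfold JJ.DD at ih ⊢
    rw [LinearMap.comp_apply, LinearMap.comp_apply]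
    exact upR_Sup _ _ (by omega) (upR_Sup _ _ (by omega) (IP.In_Sup (by omega) ih))

lemma opJ_Sup (m p q : ℕ) {v : IP.M} (hv : v ∈ IP.Sup (IP.W (m + p))) :
    opJ m p q v ∈ IP.Sup (IP.W (m + (p + q) + 1)) := by
  rw [opJ_apply]
  have h := DD_pow_Sup q hv
  rw [Nat.add_assoc] at h
  exact upR_Sup _ _ (by omega) (upR_Sup _ _ (by omega) (IP.In_Sup (by omega) h))

/-- **The crossing probability of the infinite T-junction.** -/
theorem pJ_tendsto (H : PJLaw) (m p q : ℕ) :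
    Tendsto (fun M : ℕ => pJ (2 * m + 1) (2 * ((m + p : ℕ) : ℤ) + 1) (2 * q + 1) M) atTop
      (𝓝 (1 - IP.Junc.FF m (p + q) (c0 (m + p)) (Real.pi / 6) /
        (IP.Z m (fun j => -c0 (m + p) j) * IP.Z (p + q) (c1 m p) *
          IP.Z (m + (p + q) + 1) (IP.Junc.ins1 (2 * m + 1) (Real.pi / 6) (c0 (m + p)))))) := by
  rw [← tri_FF]
  have hb : ∀ n, Finsupp.single (IP.bot n) (1 : ℝ) ∈ IP.Sup (IP.W n) := by
    intro n
    apply Finsupp.single_mem_supported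
    exact IP.bot_W n
  have h := IP.Slit.tri_tendsto m (p + q) m (p + q) (m + (p + q) + 1)
    (v1 := fun N => ((IP.T m 0) ^ (N - q - 1)) (Finsupp.single (IP.bot m) 1))
    (v2 := fun N => ((IP.In 0) ^ p) (((IP.T q 0) ^ (N - m - p)) (Finsupp.single (IP.bot q) 1)))
    (v := fun N => opJ m p q (((IP.T (m + p) 0) ^ (N + 1)) (Finsupp.single (IP.bot (m + p)) 1)))
    (w1 := IP.P m 0) (w2 := ((IP.In 0) ^ p) (IP.P q 0)) (w := opJ m p q (IP.P (m + p) 0))
    (fun N => IP.PG.T_pow_Sup m 0 _ (hb m)) (fun N => In_pow_Sup p (IP.PG.T_pow_Sup q 0 _ (hb q)))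
    (fun N => opJ_Sup m p q (IP.PG.T_pow_Sup (m + p) 0 _ (hb _)))
    (IP.P_Sup m 0) (In_pow_Sup p (IP.P_Sup q 0)) (opJ_Sup m p q (IP.P_Sup _ 0))
    (fun σ => (IP.Slit.T_pow_tendsto m σ).comp
      ((tendsto_sub_atTop_nat 1).comp (tendsto_sub_atTop_nat q)))
    (fun σ => lin_tendsto _ (fun N => IP.PG.T_pow_Sup q 0 _ (hb q)) (IP.P_Sup q 0)
      (fun τ => (IP.Slit.T_pow_tendsto q τ).comp
        ((tendsto_sub_atTop_nat p).comp (tendsto_sub_atTop_nat m))) σ)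
    (fun σ => lin_tendsto _ (fun N => IP.PG.T_pow_Sup (m + p) 0 _ (hb _)) (IP.P_Sup _ 0)
      (fun τ => (IP.Slit.T_pow_tendsto (m + p) τ).comp (tendsto_add_atTop_nat 1)) σ)
  have hodd : Tendsto (fun N : ℕ => pJ (2 * m + 1) (2 * ((m + p : ℕ) : ℤ) + 1) (2 * q + 1)
      (2 * N + 1)) atTop (𝓝 (IP.Slit.tri m (p + q) (IP.P m 0) (((IP.In 0) ^ p) (IP.P q 0))
        (opJ m p q (IP.P (m + p) 0)))) := by
    refine h.congr' ?_
    filter_upwards [eventually_ge_atTop (m + p + q + 1)] with N hN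
    rw [pJ_T H m p q N (by omega) (by omega)]
  have hmono : Monotone (fun M : ℕ => pJ (2 * m + 1) (2 * ((m + p : ℕ) : ℤ) + 1) (2 * q + 1)
      (M : ℤ)) := by
    intro M M' hM
    exact pJ_mono (by exact_mod_cast hM)
  have hsub : Tendsto (fun N : ℕ => 2 * N + 1) atTop atTop :=
    tendsto_atTop_mono (fun N => by simp only [id]; omega) tendsto_id
  rw [tendsto_iff_tendsto_subseq_of_monotone hmono hsub]
  refine hodd.congr fun N => ?_
  simp only [Function.comp_apply]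
  push_cast
  rfl

end H47Perc.JN
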