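import Pool.Agent.Helper60.J.Main
import Pool.Agent.Helper32.J.UniformB
import Pool.Agent.Helper60.J.W

/-!
The T-junction: Cardy's formula, all shapes, all parities.
-/

set_option autoImplicit false

namespace H47Perc.JN
open Filter Topology IP.Junc

/-- up rate of the odd width `n` -/
noncomputable def upr (n : ℕ) : ℝ := (3 * n + 2) * (3 * n + 5) / (9 * (2 * n + 1) * (2 * n + 3))
/-- down rate of the odd width `n` -/
noncomputable def dnr (n : ℕ) : ℝ := (3 * n - 2) * (3 * n + 1) / (9 * (2 * n - 1) * (2 * n + 1))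
/-- averaging over the neighbouring odd widths -/
noncomputable def avr (f : ℕ → ℝ) (n : ℕ) : ℝ :=
  f n + upr n * (f (n + 2) - f n) + dnr n * (f (n - 2) - f n)

lemma avr_eq (f : ℕ → ℝ) (m : ℕ) (hm : 1 ≤ m) :
    avr (fun n => f ((n - 1) / 2)) (2 * m + 1) = KK f m := by
  unfold avr KK upr dnr ku kd
  beta_reduce
  rw [show (2 * m + 1 - 1) / 2 = m by omega, show (2 * m + 1 + 2 - 1) / 2 = m + 1 by omega,
    show (2 * m + 1 - 2 - 1) / 2 = m - 1 by omega]
  push_cast
  congr 2
  · ring_nf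
  · ring_nf

lemma avr_congr {f g : ℕ → ℝ} {n : ℕ} (h0 : f n = g n) (h1 : f (n + 2) = g (n + 2))
    (h2 : f (n - 2) = g (n - 2)) : avr f n = avr g n := by
  unfold avr
  rw [h0, h1, h2]

/-- the exact crossing probability of the infinite T-junction (odd widths) -/
noncomputable def Vx (i L h : ℕ) : ℝ := JV ((i - 1) / 2) ((L - 1) / 2) ((h - 1) / 2)

/-- exact discrete harmonicity -/
theorem Vx_har {i L h : ℕ} (hi : Odd i) (hL : Odd L) (hh : Odd h) (hi3 : 3 ≤ i) (hh3 : 3 ≤ h) :
    avr (fun i' => avr (fun h' => Vx i' L h') h) i = Vx i L h := by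
  obtain ⟨m, rfl⟩ := hi
  obtain ⟨c, rfl⟩ := hL
  obtain ⟨q, rfl⟩ := hh
  have hm : 1 ≤ m := by omega
  have hq : 1 ≤ q := by omega
  have h1 := JV_har m c q hm (Or.inl hq)
  unfold Vx
  rw [show (2 * c + 1 - 1) / 2 = c by omega, show (2 * m + 1 - 1) / 2 = m by omega,
    show (2 * q + 1 - 1) / 2 = q by omega, ← h1, ← avr_eq _ m hm]
  apply avr_congr
  · exact avr_eq (fun q' => JV ((2 * m + 1 - 1) / 2) c q') q hq
  · exact avr_eq (fun q' => JV ((2 * m + 1 + 2 - 1) / 2) c q') q hq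
  · exact avr_eq (fun q' => JV ((2 * m + 1 - 2 - 1) / 2) c q') q hq

/-- the root in `(0,1)` of `t² - (1 - a² - b²) t = b²` -/
noncomputable def tr (a b : ℝ) : ℝ := tt (a ^ 2) (b ^ 2)

lemma tr_spec {a b : ℝ} (ha : 0 < a) (hb : 0 < b) :
    0 < tr a b ∧ tr a b < 1 ∧ tr a b ^ 2 - (1 - a ^ 2 - b ^ 2) * tr a b = b ^ 2 := by
  unfold tr tt
  have ha2 : 0 < a ^ 2 := by positivity
  have hb2 : 0 < b ^ 2 := by positivity
  set s := 1 - a ^ 2 - b ^ 2 with hs
  have hD : 0 < s ^ 2 + 4 * b ^ 2 := by positivity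
  have h1 := Real.sq_sqrt hD.le
  have h2 := Real.sqrt_pos.2 hD
  set r := Real.sqrt (s ^ 2 + 4 * b ^ 2) with hr
  refine ⟨?_, ?_, ?_⟩
  · have : -s < r := by
      by_contra hcon
      push Not at hcon
      nlinarith
    linarith
  · have : r < 2 - s := by
      by_contra hcon
      push Not at hcon
      nlinarith
    linarith
  · nlinarith

/-- **Cardy's formula for T-junctions**, all shapes, all parities -/
theorem junction_main : ∃ c C : ℝ, 0 < c ∧
    (∀ i L h M : ℕ, Odd i → Odd L → Odd h →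
      |pJ i L h M - Vx i L h| ≤ C * Real.exp (-(c * (M / (i + L + h))))) ∧
    ∀ a b : ℝ, 0 < a → 0 < b → ∀ ε : ℝ, 0 < ε →
      ∃ δ : ℝ, 0 < δ ∧ ∃ L₀ : ℕ, ∀ i L h M : ℕ, L₀ ≤ L →
        |(i : ℝ) / L - a| < δ → |(h : ℝ) / L - b| < δ →
        |pJ i L h M - Slit.cardy (1 - tr a b)| ≤
          ε + C * Real.exp (-(c * (M / (i + L + h)))) := by
  refine pJ_uniform' truncAll (val := Vx) (G := fun a b => Slit.cardy (1 - tr a b)) ?_ ?_
  · intro i L h hi hL hh
    obtain ⟨m, rfl⟩ := hi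
    obtain ⟨c, rfl⟩ := hL
    obtain ⟨q, rfl⟩ := hh
    have h1 := jv_tendsto m c q
    unfold Vx
    rw [show (2 * c + 1 - 1) / 2 = c by omega, show (2 * m + 1 - 1) / 2 = m by omega,
      show (2 * q + 1 - 1) / 2 = q by omega]
    push_cast
    exact h1
  · intro i L h a b ha hb hi hL hh hlim hia hhb
    have key : ∀ f : ℕ → ℕ, (∀ n, Odd (f n)) → ∀ n, (f n : ℝ) = 2 * (((f n - 1) / 2 : ℕ) : ℝ) + 1 := by
      intro f hf n
      obtain ⟨k, hk⟩ := hf n
      rw [hk, show (2 * k + 1 - 1) / 2 = k by omega]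
      push_cast
      ring
    set m : ℕ → ℕ := fun n => (i n - 1) / 2 with hm
    set c : ℕ → ℕ := fun n => (L n - 1) / 2 with hc
    set q : ℕ → ℕ := fun n => (h n - 1) / 2 with hq
    have hcT : Tendsto c atTop atTop := by
      rw [tendsto_atTop]
      intro K
      filter_upwards [hlim.eventually_ge_atTop (2 * K + 3)] with n hn
      simp only [hc]
      omega
    have hcR : Tendsto (fun n => (c n : ℝ)) atTop atTop := tendsto_natCast_atTop_atTop.comp hcT
    have hinv : Tendsto (fun n => (1 : ℝ) / c n) atTop (𝓝 0) := by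
      simp only [one_div]
      exact tendsto_inv_atTop_zero.comp hcR
    -- `L / c → 2`
    have hLc : Tendsto (fun n => (L n : ℝ) / c n) atTop (𝓝 2) := by
      have h1 : Tendsto (fun n => 2 + (1 : ℝ) / c n) atTop (𝓝 (2 + 0)) := hinv.const_add 2
      rw [add_zero] at h1
      refine h1.congr' ?_
      filter_upwards [hcR.eventually_gt_atTop 0] with n hn
      rw [key L hL n]
      change _ = (2 * (c n : ℝ) + 1) / c n
      field_simp
    have ratio : ∀ (f : ℕ → ℕ) (x : ℝ), (∀ n, Odd (f n)) →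
        Tendsto (fun n => (f n : ℝ) / L n) atTop (𝓝 x) →
        Tendsto (fun n => (((f n - 1) / 2 : ℕ) : ℝ) / c n) atTop (𝓝 x) := by
      intro f x hf hx
      have h1 : Tendsto (fun n => ((f n : ℝ) / L n * ((L n : ℝ) / c n) - (1 : ℝ) / c n) / 2) atTop
          (𝓝 ((x * 2 - 0) / 2)) := ((hx.mul hLc).sub hinv).div_const 2
      rw [show (x * 2 - 0) / 2 = x by ring] at h1
      refine h1.congr' ?_
      filter_upwards [hcR.eventually_gt_atTop 0] with n hn
      have hL0 : (0 : ℝ) < L n := by rw [key L hL n]; simp only [hc] at hn; linarith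
      rw [div_mul_div_cancel₀ hL0.ne']
      have := key f hf n
      rw [this]
      field_simp
      ring_nf
    have h1 := jv_lim ha hb m c q hcT (ratio i a hi hia) (ratio h b hh hhb)
    rw [WW_eq] at h1
    exact h1

end H47Perc.JN
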