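import Pool.Agent.Helper53.J.Defs
import Pool.Agent.Helper53.Slit.Parity

/-!
MODULE Parity (helper32): comparison of the crossing probabilities of T-junctions with neighbouring
parameters (same method as `Helper53/Slit/Parity.lean`).
-/

set_option autoImplicit false

namespace H47Perc.JN
open Finset Filter Topology SimpleGraph H47Perc H47Perc.DS H47Perc.SL
open Pool.Agent.Helper69.RSW (Up P_restrict P_congr P_mono Dep P P_compl P_indep
  P_nonneg P_le_one P_or_le P_true P_add_of_disjoint harris perc_half_eq)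

lemma par_mem_jE {i L h M : ℤ} {e : Sym2 (ℤ × ℤ)} :
    e ∈ jE i L h M ↔ e ∈ edgesIn (dom i L h M) ∧ ¬ CutJ i h e := by
  classical
  unfold jE
  rw [mem_filter]

lemma par_jE_sub (i L h M : ℤ) : jE i L h M ⊆ edgesIn (dom i L h M) := by
  intro e he
  exact (par_mem_jE.1 he).1

lemma par_dom_L {i L L' h M : ℤ} (hL : L ≤ L') : dom i L h M ⊆ dom i L' h M := by
  intro v hv
  rw [mem_dom] at hv ⊢
  obtain ⟨⟨h1, h2, h3⟩, h4⟩ := hv
  refine ⟨⟨h1, h2, ?_⟩, h4⟩
  rintro ⟨h5, h6⟩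
  exact h3 ⟨by omega, h6⟩

lemma par_jE_L {i L L' h M : ℤ} (hL : L ≤ L') : jE i L h M ⊆ jE i L' h M := by
  intro e he
  rw [par_mem_jE] at he ⊢
  exact ⟨edgesIn_mono (par_dom_L hL) he.1, he.2⟩

lemma par_up (i L h : ℤ) : Up (CrJ i L h) := fun _ _ h hc => crJ_mono h hc

/-- a crossing to the farther target contains a crossing to the nearer one -/
lemma par_cr_L {i L h M : ℤ} (hh : 1 ≤ h)
    {ω : Finset (Sym2 (ℤ × ℤ))} (hω : ω ⊆ jE i (L + 1) h M) (hc : CrJ i (L + 1) h ω) :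
    CrJ i L h (ω ∩ jE i L h M) := by
  classical
  obtain ⟨z, z', ⟨h1, h2⟩, h3, h4⟩ := hc
  have hω' : ω ⊆ edgesIn (dom i (L + 1) h M) := hω.trans (par_jE_sub _ _ _ _)
  have hzz : z ≠ z' := by
    rintro rfl
    rcases h3 with h3 | h3 <;> omega
  have hz := mem_of_joined_ne hω' h4 hzz
  set T : Finset (ℤ × ℤ) := (dom i L h M).filter (fun v => ¬ Tg L v) with hT
  have hzT : z ∈ T := by
    rw [hT, mem_filter]
    rw [mem_dom] at hz ⊢
    refine ⟨⟨⟨hz.1.1, hz.1.2.1, ?_⟩, hz.2⟩, ?_⟩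
    · rintro ⟨h5, h6⟩
      omega
    · rintro (h5 | h5) <;> omega
  have hz'T : z' ∉ T := by
    rw [hT, mem_filter]
    rintro ⟨h5, h6⟩
    rw [mem_dom] at h5
    rcases h3 with ⟨h3, h3'⟩ | ⟨h3, h3'⟩
    · by_cases hw : z'.1 - z'.2 = 1
      · exact h6 (Or.inr ⟨by omega, hw⟩)
      · exact h5.1.2.2 ⟨by omega, by omega⟩
    · exact h6 (Or.inr ⟨by omega, h3'⟩)
  obtain ⟨v, v', w1, w2, w3, w4, w5, w6⟩ := joined_exit hω' h4 hzT hz'T
  have g1 := adj_sum w4
  have g2 := adj_level w4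
  rw [hT, mem_filter, mem_dom] at w1
  obtain ⟨⟨⟨a1, a2, a3⟩, a4, a5⟩, a6⟩ := w1
  have w3' := w3
  rw [mem_dom] at w3'
  obtain ⟨⟨b1, b2, b3⟩, b4, b5⟩ := w3'
  have hv' : v' ∈ dom i L h M := by
    rw [mem_dom]
    refine ⟨⟨b1, b2, ?_⟩, b4, b5⟩
    rintro ⟨c1, c2⟩
    have c3 : v'.1 + v'.2 = L + 1 := by
      by_contra hne
      exact b3 ⟨by omega, c2⟩
    apply a6
    by_cases c4 : v.1 + v.2 = L
    · exact Or.inl ⟨c4, by omega⟩
    · refine Or.inr ⟨by omega, ?_⟩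
      by_contra hne
      exact a3 ⟨by omega, by omega⟩
  have hv'' : Tg L v' := by
    by_contra hne
    exact w2 (by rw [hT, mem_filter]; exact ⟨hv', hne⟩)
  refine ⟨z, v', ⟨h1, h2⟩, hv'', joined_trans (joined_mono ?_ w6) (joined_edge ?_)⟩
  · intro e he
    rw [mem_inter] at he
    rw [mem_inter, par_mem_jE]
    exact ⟨he.1, edgesIn_mono (filter_subset _ _) he.2, (par_mem_jE.1 (hω he.1)).2⟩
  · rw [mem_inter, par_mem_jE, mem_edgesIn]
    refine ⟨w5, ⟨?_, hv', w4⟩, (par_mem_jE.1 (hω w5)).2⟩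
    rw [mem_dom]
    exact ⟨⟨a1, a2, a3⟩, a4, a5⟩

/-- the target moves away (no error): a path to the new target meets the old one -/
theorem pJ_L' {i L h M : ℤ} (hh : 1 ≤ h) :
    pJ i (L + 1) h M ≤ pJ i L h M := by
  classical
  have hsub : jE i L h M ⊆ jE i (L + 1) h M := par_jE_L (by omega)
  have hD : Dep (jE i L h M) (fun ω : Finset (Sym2 (ℤ × ℤ)) => CrJ i L h (ω ∩ jE i L h M)) := by
    intro S
    simp only
    rw [inter_assoc, inter_self]
  unfold pJ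
  refine (P_mono fun S hS hc => par_cr_L hh hS hc).trans (le_of_eq ?_)
  refine (P_restrict hsub hD).trans ?_
  apply P_congr
  intro S hS
  rw [inter_eq_left.2 hS]

/-- the vertex `u = a`, `w = b` is joined to the target -/
def parTip (L a b : ℤ) (ω : Finset (Sym2 (ℤ × ℤ))) : Prop :=
  ∃ t z' : ℤ × ℤ, t.1 + t.2 = a ∧ t.1 - t.2 = b ∧ Tg L z' ∧ Joined ω t z'

lemma par_tip_le {i L h M a b : ℤ} {n : ℕ} (hn : 2 * (n : ℤ) ≤ b - 1) :
    P (jE i L h M) (parTip L a b) ≤ pi1 n := by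
  classical
  by_cases hex : ∃ t : ℤ × ℤ, t.1 + t.2 = a ∧ t.1 - t.2 = b
  · obtain ⟨t, ht1, ht2⟩ := hex
    have hUp : Up (parTip L a b) := by
      rintro ω ω' h' ⟨t, z', h1, h2, h3, h4⟩
      exact ⟨t, z', h1, h2, h3, joined_mono h' h4⟩
    refine (P_enlarge (par_jE_sub i L h M) hUp).trans ?_
    have h1 : P (edgesIn (dom i L h M)) (parTip L a b) ≤ armP (dom i L h M) t n := by
      unfold armP
      rw [perc_half_eq]
      apply P_mono
      rintro S hS ⟨t', z', h1, h2, h3, h4⟩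
      have h5 : t' = t := Prod.ext (by omega) (by omega)
      subst h5
      rw [← inter_eq_left.2 hS] at h4
      apply arm_of_joined (by omega) h4
      by_contra hcon
      push Not at hcon
      have e1 := abs_lt.1 hcon.1
      have e2 := abs_lt.1 hcon.2
      rcases h3 with h3 | h3 <;> omega
    refine h1.trans ?_
    have h2 : armP (dom i L h M) t n ≤
        armP ((box (-(n : ℤ)) n (-n) n).map (transl t).toEmbedding) t n := by
      apply armP_mono
      refine inter_subset_right.trans ?_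
      intro z hz
      rw [mem_map_equiv, mem_box]
      rw [mem_ball, abs_le, abs_le] at hz
      have e : (transl t).symm z = (z.1 - t.1, z.2 - t.2) := by
        rw [Equiv.symm_apply_eq]
        refine Prod.ext ?_ ?_ <;> simp [transl]
      rw [e]
      simp only
      omega
    refine h2.trans (le_of_eq ?_)
    have h3 := armP_map (transl_sym t) (box (-(n : ℤ)) n (-n) n) (0, 0) n
    have h4 : transl t (0, 0) = t := by simp [transl]
    rw [h4] at h3
    exact h3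
  · refine le_trans (le_of_eq ?_) (pi1_nonneg n)
    have : P (jE i L h M) (parTip L a b) = P (jE i L h M) (fun _ => False) := by
      apply P_congr
      intro S _
      simp only [iff_false]
      rintro ⟨t, z', h1, h2, _, _⟩
      exact hex ⟨t, h1, h2⟩
    rw [this]
    unfold P
    simp

/-- moving the source by one line -/
lemma par_cr_i {i L h M : ℤ} (hh : 1 ≤ h) {ω : Finset (Sym2 (ℤ × ℤ))}
    (hω : ω ⊆ jE (i + 1) L h M) (hc : CrJ (i + 1) L h ω) :
    CrJ i L h (ω ∩ jE i L h M) ∨ parTip L (i + 1) (h + 1) ω := by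
  classical
  obtain ⟨z, z', ⟨h1, h2⟩, h3, h4⟩ := hc
  have hω' : ω ⊆ edgesIn (dom (i + 1) L h M) := hω.trans (par_jE_sub _ _ _ _)
  have hzz : z' ≠ z := by
    rintro rfl
    rcases h3 with h3 | h3 <;> omega
  have hz' := mem_of_joined_ne hω' (joined_symm h4) hzz
  set T : Finset (ℤ × ℤ) := (dom (i + 1) L h M).filter
    (fun v => ¬ (v.1 + v.2 = i + 1 ∧ h + 1 ≤ v.1 - v.2)) with hT
  have hzT : z ∉ T := by
    rw [hT, mem_filter]
    rintro ⟨_, h5⟩
    exact h5 ⟨h1, h2⟩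
  have hz'T : z' ∈ T := by
    rw [hT, mem_filter]
    refine ⟨hz', fun h5 => ?_⟩
    rcases h3 with h3 | h3 <;> omega
  obtain ⟨v, v', w1, w2, w3, w4, w5, w6⟩ := joined_exit hω' (joined_symm h4) hz'T hzT
  have g1 := adj_sum w4
  have g2 := adj_level w4
  rw [hT, mem_filter, mem_dom] at w1
  obtain ⟨⟨⟨a1, a2, a3⟩, a4, a5⟩, a6⟩ := w1
  have g3 : v'.1 + v'.2 = i + 1 ∧ h + 1 ≤ v'.1 - v'.2 := by
    by_contra hne
    exact w2 (by rw [hT, mem_filter]; exact ⟨w3, hne⟩)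
  have g4 := (par_mem_jE.1 (hω w5)).2
  rw [cutJ_mk] at g4
  have hsubT : T ⊆ dom i L h M := by
    intro x hx
    rw [hT, mem_filter, mem_dom] at hx
    obtain ⟨⟨⟨b1, b2, b3⟩, b4, b5⟩, b6⟩ := hx
    rw [mem_dom]
    refine ⟨⟨b1, ?_, b3⟩, b4, b5⟩
    rintro ⟨c1, c2⟩
    by_cases c3 : x.1 + x.2 = i + 1
    · exact b6 ⟨c3, by omega⟩
    · exact b2 ⟨by omega, c2⟩
  have hsub : ω ∩ edgesIn T ⊆ ω ∩ jE i L h M := by
    intro e he
    rw [mem_inter] at he
    rw [mem_inter, par_mem_jE]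
    refine ⟨he.1, edgesIn_mono hsubT he.2, ?_⟩
    rintro ⟨x, y, rfl, k1, k2, k3, k4⟩
    have k5 := mem_edgesIn.1 he.2
    rw [hT, mem_filter, mem_filter] at k5
    exact k5.2.1.2 ⟨k3, by omega⟩
  by_cases hc : v.1 + v.2 = i ∧ h + 1 ≤ v.1 - v.2
  · left
    exact ⟨v, z', hc, h3, joined_mono hsub (joined_symm w6)⟩
  · right
    refine ⟨v', z', g3.1, ?_, h3, joined_trans (v := v) (joined_symm (joined_edge w5)) ?_⟩
    · by_contra hne
      rcases (by omega : v.1 + v.2 = i ∨ v.1 + v.2 = i + 2) with c | c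
      · exact hc ⟨c, by omega⟩
      · by_cases c2 : v.1 - v.2 = h + 1
        · exact g4 (Or.inr ⟨g3.1, by omega, by omega, c2⟩)
        · exact a2 ⟨by omega, by omega⟩
    · exact joined_mono inter_subset_left (joined_symm w6)

lemma par_restrict {i L h M : ℤ} {F : Finset (Sym2 (ℤ × ℤ))} (hF : F ⊆ edgesIn (dom (i + 1) L h M)) :
    P F (fun ω => CrJ i L h (ω ∩ jE i L h M)) ≤ pJ i L h M := by
  classical
  have hD : Dep (jE i L h M) (fun ω : Finset (Sym2 (ℤ × ℤ)) => CrJ i L h (ω ∩ jE i L h M)) := by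
    intro S
    simp only
    rw [inter_assoc, inter_self]
  have hUp : Up (fun ω : Finset (Sym2 (ℤ × ℤ)) => CrJ i L h (ω ∩ jE i L h M)) :=
    fun _ _ h hc => crJ_mono (inter_subset_inter_right h) hc
  have hdom : dom i L h M ⊆ dom (i + 1) L h M := by
    intro v hv
    rw [mem_dom] at hv ⊢
    obtain ⟨⟨h1, h2, h3⟩, h4⟩ := hv
    refine ⟨⟨h1, ?_, h3⟩, h4⟩
    rintro ⟨h5, h6⟩
    exact h2 ⟨by omega, h6⟩
  refine (P_enlarge hF hUp).trans (le_of_eq ?_)
  refine (P_restrict ((par_jE_sub i L h M).trans (edgesIn_mono hdom)) hD).trans ?_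
  unfold pJ
  apply P_congr
  intro S hS
  rw [inter_eq_left.2 hS]

/-- error: arm from the vertex `u = i+1`, `w = h+1` to the target (distance `h` in `w`) -/
theorem pJ_i' {i L h M : ℤ} (hh : 1 ≤ h) {n : ℕ} (hn : 2 * (n : ℤ) ≤ h) :
    pJ (i + 1) L h M ≤ pJ i L h M + pi1 n := by
  classical
  calc pJ (i + 1) L h M ≤ P (jE (i + 1) L h M)
        (fun ω => CrJ i L h (ω ∩ jE i L h M) ∨ parTip L (i + 1) (h + 1) ω) := by
        unfold pJ
        exact P_mono fun S hS hc => par_cr_i hh hS hc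
    _ ≤ _ := P_or_le _ _ _
    _ ≤ _ := add_le_add (par_restrict (par_jE_sub _ _ _ _)) (par_tip_le (by omega))

/-- `jE i L h M ⊆ jE i L (h+1) M`; error: arm from the vertex `u = i`, `w = h+1` to the target -/
theorem pJ_h' {i L h M : ℤ} {n : ℕ} (hn : 2 * (n : ℤ) ≤ h) :
    pJ i L h M ≤ pJ i L (h + 1) M + pi1 n := by
  classical
  have hdom : dom i L h M ⊆ dom i L (h + 1) M := by
    intro v hv
    rw [mem_dom] at hv ⊢
    obtain ⟨⟨h1, h2, h3⟩, h4⟩ := hv
    refine ⟨⟨h1, ?_, h3⟩, h4⟩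
    rintro ⟨h5, h6⟩
    exact h2 ⟨h5, by omega⟩
  have hsub : jE i L h M ⊆ jE i L (h + 1) M := by
    intro e he
    rw [par_mem_jE] at he ⊢
    refine ⟨edgesIn_mono hdom he.1, ?_⟩
    rintro ⟨x, y, rfl, k1, k2, k3, k4⟩
    have k5 := (mem_edgesIn.1 he.1).2.1
    rw [mem_dom] at k5
    exact k5.1.2.1 ⟨by omega, by omega⟩
  calc pJ i L h M ≤ P (jE i L h M)
        (fun ω => CrJ i L (h + 1) ω ∨ parTip L i (h + 1) ω) := by
        unfold pJ
        apply P_mono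
        rintro S hS ⟨z, z', ⟨h1, h2⟩, h3, h4⟩
        by_cases hc : h + 1 + 1 ≤ z.1 - z.2
        · exact Or.inl ⟨z, z', ⟨h1, hc⟩, h3, h4⟩
        · exact Or.inr ⟨z, z', h1, by omega, h3, h4⟩
    _ ≤ _ := P_or_le _ _ _
    _ ≤ _ := add_le_add (P_enlarge hsub (par_up _ _ _)) (par_tip_le (by omega))

/-- the target moves away (no error): a path to the new target meets the old one -/
theorem pJ_L {i L h M : ℤ} (_hi : 1 ≤ i) (_hL : i ≤ L) (hh : 1 ≤ h) :
    pJ i (L + 1) h M ≤ pJ i L h M := pJ_L' hh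

/-- error: arm from the vertex `u = i+1`, `w = h+1` to the target (distance `h` in `w`) -/
theorem pJ_i {i L h M : ℤ} (_hi : 1 ≤ i) (_hL : i + 1 ≤ L) (hh : 1 ≤ h) {n : ℕ}
    (hn : 2 * (n : ℤ) ≤ h) : pJ (i + 1) L h M ≤ pJ i L h M + pi1 n := pJ_i' hh hn

/-- `jE i L h M ⊆ jE i L (h+1) M`; error: arm from the vertex `u = i`, `w = h+1` to the target -/
theorem pJ_h {i L h M : ℤ} (_hi : 1 ≤ i) (_hL : i ≤ L) (_hh : 1 ≤ h) {n : ℕ}
    (hn : 2 * (n : ℤ) ≤ h) : pJ i L h M ≤ pJ i L (h + 1) M + pi1 n := pJ_h' hn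

end H47Perc.JN
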